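import Pool.Agent.H21.SplitGame

set_option autoImplicit false

namespace Pool.Agent.Results.MP_c086f7_lc.NeitherWins

open Pool.Agent.H21.SplitGame

universe u

/-- In the set-splitting game `G(E)`: for every uncountable `E` player A has no winning strategy;
for every `E` of cardinality at most the continuum player B has no winning strategy.  In particular
`G(E)` is undetermined whenever `ℵ₁ ≤ |E| ≤ 2^ℵ₀`. -/
theorem result :
    (∀ E : Type u, Uncountable E → ¬ AWins E) ∧
    (∀ E : Type u, Cardinal.mk E ≤ Cardinal.continuum → ¬ BWins E) := by
  refine ⟨fun E _ => not_AWins, fun E hE => not_BWins ?_⟩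
  simpa using hE

end Pool.Agent.Results.MP_c086f7_lc.NeitherWins
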